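import Pool.Agent.helper237_FT4.T_path
import Pool.Agent.helper237_FT4.T_ey
import Pool.Agent.helper237_FT4.T_lev
import Pool.Agent.helper237_FT4.T_ustep
import Pool.Agent.helper237_FT4.T_uax
import Pool.Agent.helper237_FT4.T_rootE
import Pool.Agent.helper237_FT4.T_D
import Pool.Agent.helper237_FT4.T_mass
import Pool.Agent.helper237_FT4.T_Ibd
import Pool.Agent.helper237_FT4.T_Wb
import Pool.Agent.helper237_FT4.T_domin
import Pool.Agent.helper237_FT4.T_clo
import Pool.Agent.helper237_FT4.T_adapt
import Pool.Agent.helper237_FT4.T_fair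
import Pool.Agent.helper237_FT4.T_inv
import Pool.Agent.helper237_FT4.T_row
import Pool.Agent.helper237_FT4.T_repl
import Pool.Agent.helper237_FT4.T_dom
import Pool.Agent.helper237_FT4.T_root
import Pool.Agent.helper237_FT4.T_cert
import Pool.Agent.helper237_FT4.T_main

/-!
# The frog model on the 4-ary tree is almost surely transient
-/

set_option autoImplicit false

open MeasureTheory ProbabilityTheory

namespace Pool.Agent.Results.MP_2b43a6_pr.FourAryTree

/-- In the frog model on the rooted 4-ary tree (one frog per vertex, root frog awake, simple random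
walks, woken on first visit), almost surely the root is visited only finitely many times by woken
frogs. -/
theorem result :
    ∀ (Ω : Type) [MeasurableSpace Ω] (P : Measure Ω) [IsProbabilityMeasure P]
      (ξ : List (Fin 4) → ℕ → Ω → Fin 4 × Fin 5),
      (∀ v k, Measurable (ξ v k)) →
      iIndepFun (fun p : List (Fin 4) × ℕ => ξ p.1 p.2) P →
      (∀ v k (c : Fin 4 × Fin 5), P (ξ v k ⁻¹' {c}) = 1 / 20) →
      ∀ (S : List (Fin 4) → ℕ → Ω → List (Fin 4)),
      (∀ v ω, S v 0 ω = v) →
      (∀ v k ω, S v (k + 1) ω =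
        if S v k ω = [] then [(ξ v k ω).1]
        else if (ξ v k ω).2 = 0 then (S v k ω).tail
        else (ξ v k ω).1 :: S v k ω) →
      ∀ᵐ ω ∂P, Set.Finite
        {p : List (Fin 4) × ℕ |
          (∀ A : Set (List (Fin 4)), [] ∈ A →
              (∀ v ∈ A, ∀ k, S v k ω ∈ A) → p.1 ∈ A) ∧
          S p.1 p.2 ω = []} := by
  have hax : FT4.S_uax := FT4.t_uax FT4.t_path FT4.t_ey FT4.t_lev (FT4.t_ustep FT4.t_path)
  have hrE : FT4.S_rootE := FT4.t_rootE FT4.t_path FT4.t_ey
  have hclo : FT4.S_clo := FT4.t_clo FT4.t_D (FT4.t_mass FT4.t_ey) (FT4.t_Ibd FT4.t_ey) FT4.t_Wb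
    FT4.t_domin FT4.t_ey
  have hdom : FT4.S_dom := FT4.t_dom FT4.t_path FT4.t_repl FT4.t_row hax hclo
  have hroot : FT4.S_root := FT4.t_root FT4.t_path FT4.t_repl FT4.t_row hdom hrE
  exact FT4.t_main FT4.t_fair FT4.t_adapt FT4.t_inv hroot FT4.t_cert

end Pool.Agent.Results.MP_2b43a6_pr.FourAryTree

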